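import Pool.Agent.W533.LP.Stm
import Pool.Agent.W533.LP.Stm3

/-!
# LP-INC: increments of the end point hardly depend on the starting point
-/

set_option autoImplicit false
set_option relaxedAutoImplicit false

namespace Pool.Agent.W991.LP

open MeasureTheory ProbabilityTheory
open Pool.Agent.W533.LP

theorem reindex {Ω ι ι' : Type} [MeasurableSpace Ω] {μ : Measure Ω} {p : ι → ℝ} {X : ι → Ω → ℕ}
    (h : GeoFam μ p X) (g : ι' → ι) (hg : Function.Injective g) {p' : ι' → ℝ} {X' : ι' → Ω → ℕ}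
    (hp : ∀ i, p' i = p (g i)) (hX : ∀ i, X' i = X (g i)) : GeoFam μ p' X' where
  prob := h.prob
  pos := fun i => by rw [hp]; exact h.pos _
  meas := fun i => by rw [hX]; exact h.meas _
  indep := by
    have : X' = fun i => X (g i) := funext hX
    rw [this]; exact h.indep.precomp hg
  law := fun i k => by rw [hX, hp]; exact h.law _ k

theorem systems (hSys : ASys) (q a a' : ℝ) (hq : 0 < q) (h1 : q < a) (h2 : a < 1) (h3 : q < a')
    (h4 : a' < 1) (x y : ℕ) :
    ∃ (Ω : Type) (_ : MeasurableSpace Ω) (μ : Measure Ω) (I J I' J' : ℕ → Ω → ℕ)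
      (W : ℕ → ℕ → Ω → ℕ),
      Bulk μ q W ∧ Sys0 μ q a I J (shr y 0 W) ∧ Sys0 μ q a' I' J' (shr x 0 W) := by
  have ha' : 0 < a' := by linarith
  obtain ⟨Ω, mΩ, μ, I, J, W, X, hS⟩ := hSys (κ := ℕ ⊕ ℕ) q a (Sum.elim (fun _ => a') (fun _ => q / a'))
    hq h1 h2 (by
      rintro (i | j)
      · exact ⟨ha'.le, h4⟩
      · exact ⟨by simp only [Sum.elim_inr]; positivity, by
          simp only [Sum.elim_inr]; rw [div_lt_one ha']; exact h3⟩)
  refine ⟨Ω, mΩ, μ, I, J, fun i => X (Sum.inl i), fun j => X (Sum.inr j), W, ?_, ?_, ?_⟩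
  · exact reindex hS (fun v => Sum.inr (Sum.inr (Sum.inl v))) (fun v w h => by simpa using h)
      (fun _ => rfl) (fun _ => rfl)
  · refine reindex hS (fun i => match i with
      | Sum.inl i => Sum.inl i
      | Sum.inr (Sum.inl j) => Sum.inr (Sum.inl j)
      | Sum.inr (Sum.inr (Sum.inl v)) => Sum.inr (Sum.inr (Sum.inl (v.1 + y, v.2 + 0)))
      | Sum.inr (Sum.inr (Sum.inr e)) => e.elim) ?_ ?_ ?_
    · rintro (i | j | ⟨v1, v2⟩ | e) (i' | j' | ⟨v1', v2'⟩ | e') h <;> simp at h <;>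
        first | (subst h; rfl) | (exact e.elim) | (exact e'.elim) | (obtain ⟨h, h'⟩ := h; subst h h'; rfl)
    · rintro (i | j | v | e)
      · rfl
      · rfl
      · rfl
      · exact e.elim
    · rintro (i | j | v | e)
      · rfl
      · rfl
      · rfl
      · exact e.elim
  · refine reindex hS (fun i => match i with
      | Sum.inl i => Sum.inr (Sum.inr (Sum.inr (Sum.inl i)))
      | Sum.inr (Sum.inl j) => Sum.inr (Sum.inr (Sum.inr (Sum.inr j)))
      | Sum.inr (Sum.inr (Sum.inl v)) => Sum.inr (Sum.inr (Sum.inl (v.1 + x, v.2 + 0)))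
      | Sum.inr (Sum.inr (Sum.inr e)) => e.elim) ?_ ?_ ?_
    · rintro (i | j | ⟨v1, v2⟩ | e) (i' | j' | ⟨v1', v2'⟩ | e') h <;> simp at h <;>
        first | (subst h; rfl) | (exact e.elim) | (exact e'.elim) | (obtain ⟨h, h'⟩ := h; subst h h'; rfl)
    · rintro (i | j | v | e)
      · rfl
      · rfl
      · rfl
      · exact e.elim
    · rintro (i | j | v | e)
      · rfl
      · rfl
      · rfl
      · exact e.elim

theorem incr (hA : AMeas) (hBurke : PBurke) (hMom : PMom) {Ω : Type} [MeasurableSpace Ω]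
    (μ : Measure Ω) (q a : ℝ) (hq : 0 < q) (h1 : q < a) (h2 : a < 1) (I J : ℕ → Ω → ℕ)
    (W : ℕ → ℕ → Ω → ℕ) (hS : Sys0 μ q a I J W) (m s n : ℕ) :
    MemLp (fun ω => (Gr I J W (m + s) n ω : ℝ) - Gr I J W m n ω) 2 μ ∧
    ∫ ω, ((Gr I J W (m + s) n ω : ℝ) - Gr I J W m n ω) ∂μ = s * mean a ∧
    ∫ ω, ((Gr I J W (m + s) n ω : ℝ) - Gr I J W m n ω - s * mean a) ^ 2 ∂μ = s * vari a := by
  have hprob : IsProbabilityMeasure μ := GeoFam.prob hS
  obtain ⟨C, hC, hM⟩ := hMom a h2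
  have hB := hBurke μ q a I J W _ _ hq h1 h2 hS (m + s) n
  have hX : GeoFam μ (fun _ : Fin s => a) (fun i : Fin s => Ninc I J W n (m + i)) :=
    reindex hB (fun i : Fin s => Sum.inl ⟨m + i, by omega⟩) (fun i j h => by
      simp only [Sum.inl.injEq, Fin.mk.injEq] at h
      ext; omega) (fun _ => rfl) (fun _ => rfl)
  obtain ⟨k1, k2, k3, -⟩ := hM μ a s _ le_rfl hX
  have hD : (fun ω => ∑ i : Fin s, ((Ninc I J W n (m + i) ω : ℕ) : ℝ)) =
      fun ω => (Gr I J W (m + s) n ω : ℝ) - Gr I J W m n ω := by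
    funext ω
    have e1 : ∀ i : ℕ, ((Ninc I J W n (m + i) ω : ℕ) : ℝ) =
        (Gr I J W (m + (i + 1)) n ω : ℝ) - Gr I J W (m + i) n ω := by
      intro i
      unfold Ninc
      rw [Nat.cast_sub]
      · rfl
      · exact (hA.2.2 _ _ _ _ _).1
    have e2 := Finset.sum_range_sub (fun i => (Gr I J W (m + i) n ω : ℝ)) s
    rw [Fin.sum_univ_eq_sum_range (fun i => ((Ninc I J W n (m + i) ω : ℕ) : ℝ)) s,
      Finset.sum_congr rfl fun i _ => e1 i, e2]
    rfl
  rw [hD] at k1 k3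
  have k2' : ∫ ω, ((Gr I J W (m + s) n ω : ℝ) - Gr I J W m n ω) ∂μ = s * mean a := by
    rw [← k2]
    exact integral_congr_ae (Filter.Eventually.of_forall fun ω => (congrFun hD ω).symm)
  have k1' : MemLp (fun ω => (Gr I J W (m + s) n ω : ℝ) - Gr I J W m n ω) 2 μ :=
    k1.mono_exponent (by norm_num)
  refine ⟨k1', k2', ?_⟩
  rw [← k3, variance_eq_integral k1'.aestronglyMeasurable.aemeasurable, k2']

theorem abstract {Ω : Type} [MeasurableSpace Ω] (μ : Measure Ω) [IsProbabilityMeasure μ]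
    (Xp Xm Y : Ω → ℝ) (bad : Set Ω) (hbad : MeasurableSet bad) (hY : Measurable Y)
    (hp : MemLp Xp 2 μ) (hm : MemLp Xm 2 μ) (ep em v r θ : ℝ) (hθ : 0 < θ) (hr : 0 ≤ r)
    (hgood : ∀ ω, ω ∉ bad → 0 ≤ Y ω ∧ Y ω ≤ Xp ω - Xm ω)
    (iep : ∫ ω, Xp ω ∂μ = ep) (iem : ∫ ω, Xm ω ∂μ = em) (hem : em ≤ ep)
    (vp : ∫ ω, (Xp ω - ep) ^ 2 ∂μ ≤ v) (vm : ∫ ω, (Xm ω - em) ^ 2 ∂μ ≤ v) :
    r * μ.real ({ω | r ≤ Y ω} ∩ badᶜ) ≤ (ep - em) + θ * v + 1 / θ * μ.real bad := by
  have hSm : MeasurableSet ({ω | r ≤ Y ω} ∩ badᶜ) := (hY measurableSet_Ici).inter hbad.compl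
  have ip : Integrable Xp μ := hp.integrable (by norm_num)
  have im : Integrable Xm μ := hm.integrable (by norm_num)
  have hp' : MemLp (fun ω => Xp ω - ep) 2 μ := hp.sub (memLp_const ep)
  have hm' : MemLp (fun ω => Xm ω - em) 2 μ := hm.sub (memLp_const em)
  have ip2 : Integrable (fun ω => (Xp ω - ep) ^ 2) μ := hp'.integrable_sq
  have im2 : Integrable (fun ω => (Xm ω - em) ^ 2) μ := hm'.integrable_sq
  have iS : Integrable (({ω | r ≤ Y ω} ∩ badᶜ).indicator fun _ => r) μ :=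
    (integrable_const r).indicator hSm
  have iB : Integrable (bad.indicator fun _ => 1 / θ) μ := (integrable_const _).indicator hbad
  have key : ∀ ω, ({ω | r ≤ Y ω} ∩ badᶜ).indicator (fun _ => r) ω ≤
      (Xp ω - Xm ω) + (θ / 2 * (Xp ω - ep) ^ 2 + θ / 2 * (Xm ω - em) ^ 2) +
        bad.indicator (fun _ => 1 / θ) ω := by
    intro ω
    have q1 : 0 ≤ θ / 2 * (Xp ω - ep) ^ 2 := by positivity
    have q2 : 0 ≤ θ / 2 * (Xm ω - em) ^ 2 := by positivity
    by_cases hb : ω ∈ bad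
    · rw [Set.indicator_of_notMem (fun h => h.2 hb), Set.indicator_of_mem hb]
      have q3 : 0 ≤ (Xp ω - ep) + θ / 2 * (Xp ω - ep) ^ 2 + 1 / (2 * θ) := by
        have : (Xp ω - ep) + θ / 2 * (Xp ω - ep) ^ 2 + 1 / (2 * θ) =
            (θ * (Xp ω - ep) + 1) ^ 2 / (2 * θ) := by field_simp; ring
        rw [this]; positivity
      have q4 : 0 ≤ -(Xm ω - em) + θ / 2 * (Xm ω - em) ^ 2 + 1 / (2 * θ) := by
        have : -(Xm ω - em) + θ / 2 * (Xm ω - em) ^ 2 + 1 / (2 * θ) =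
            (θ * (Xm ω - em) - 1) ^ 2 / (2 * θ) := by field_simp; ring
        rw [this]; positivity
      have q5 : 1 / θ = 1 / (2 * θ) + 1 / (2 * θ) := by field_simp; norm_num
      rw [q5]
      linarith
    · rw [Set.indicator_of_notMem hb]
      obtain ⟨g1, g2⟩ := hgood ω hb
      by_cases hY' : r ≤ Y ω
      · have hmem : ω ∈ {ω | r ≤ Y ω} ∩ badᶜ := ⟨hY', hb⟩
        rw [Set.indicator_of_mem hmem]
        linarith
      · rw [Set.indicator_of_notMem (fun h => hY' h.1)]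
        linarith
  have i1 : Integrable (fun ω => Xp ω - Xm ω) μ := ip.sub im
  have i2 : Integrable (fun ω => θ / 2 * (Xp ω - ep) ^ 2) μ := ip2.const_mul _
  have i3 : Integrable (fun ω => θ / 2 * (Xm ω - em) ^ 2) μ := im2.const_mul _
  have i23 : Integrable (fun ω => θ / 2 * (Xp ω - ep) ^ 2 + θ / 2 * (Xm ω - em) ^ 2) μ := i2.add i3
  have i123 : Integrable (fun ω => (Xp ω - Xm ω) +
      (θ / 2 * (Xp ω - ep) ^ 2 + θ / 2 * (Xm ω - em) ^ 2)) μ := i1.add i23
  have iR : Integrable (fun ω => (Xp ω - Xm ω) + (θ / 2 * (Xp ω - ep) ^ 2 + θ / 2 * (Xm ω - em) ^ 2) +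
        bad.indicator (fun _ => 1 / θ) ω) μ := i123.add iB
  have h1 := integral_mono iS iR key
  rw [integral_indicator_const _ hSm, smul_eq_mul] at h1
  rw [integral_add i123 iB, integral_add i1 i23, integral_add i2 i3, integral_sub ip im,
    integral_const_mul, integral_const_mul, integral_indicator_const _ hbad, smul_eq_mul, iep, iem] at h1
  have h2 : θ / 2 * ∫ ω, (Xp ω - ep) ^ 2 ∂μ ≤ θ / 2 * v := mul_le_mul_of_nonneg_left vp (by positivity)
  have h3 : θ / 2 * ∫ ω, (Xm ω - em) ^ 2 ∂μ ≤ θ / 2 * v := mul_le_mul_of_nonneg_left vm (by positivity)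
  linarith

theorem mean_mono {a b : ℝ} (h : a ≤ b) (hb : b < 1) : mean a ≤ mean b := by
  unfold mean
  rw [div_le_div_iff₀ (by linarith) (by linarith)]
  have h1 : a * (1 - b) = a - a * b := by ring
  have h2 : b * (1 - a) = b - a * b := by ring
  linarith

theorem mean_diff {t d g : ℝ} (hg0 : 0 < g) (hd : 0 ≤ d) (h1 : g ≤ 1 - (t + d)) (h2 : g ≤ 1 - (t - d)) :
    mean (t + d) - mean (t - d) ≤ 2 * d / g ^ 2 := by
  unfold mean
  have h1' : 0 < 1 - (t + d) := by linarith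
  have h2' : 0 < 1 - (t - d) := by linarith
  have h3 : (t + d) / (1 - (t + d)) - (t - d) / (1 - (t - d)) =
      2 * d / ((1 - (t + d)) * (1 - (t - d))) := by
    field_simp
    ring
  rw [h3]
  refine div_le_div_of_nonneg_left (by positivity) (by positivity) ?_
  rw [pow_two]
  exact mul_le_mul h1 h2 hg0.le h1'.le

theorem sqrt_bd {s c κ h : ℝ} (hκ : 0 ≤ κ) (hh : 0 ≤ h) (hs : s ≤ c * h ^ 2) (hc : c ≤ κ ^ 2) :
    Real.sqrt s ≤ κ * h := by
  rw [Real.sqrt_le_left (by positivity)]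
  have h0 : 0 ≤ h ^ 2 := by positivity
  calc s ≤ c * h ^ 2 := hs
    _ ≤ κ ^ 2 * h ^ 2 := mul_le_mul_of_nonneg_right hc h0
    _ = (κ * h) ^ 2 := by ring

theorem sh_sh {Ω : Type} (W' : ℕ → ℕ → Ω → ℕ) (x k0 : ℕ) (ω : Ω) :
    sh k0 0 (fun i j => shr x 0 W' i j ω) = sh (x + k0) 0 (fun i j => W' i j ω) := by
  funext i j
  show W' (i + k0 + x) (j + 0 + 0) ω = W' (i + (x + k0)) (j + 0) ω
  rw [show i + k0 + x = i + (x + k0) by omega]

theorem pInc (hSW : PSW) (hBurke : PBurke) (hMom : PMom) (hA : AMeas) (hSys : ASys) (hLawB : ALawB)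
    (hSand : DSand) (hCross : DCross) : PInc := by
  intro q B ε hq hq1 hB hε
  obtain ⟨C, hC, hSW⟩ := hSW q hq hq1
  set t := Real.sqrt q with ht
  have htt : t * t = q := Real.mul_self_sqrt hq.le
  have ht0 : 0 < t := Real.sqrt_pos.2 hq
  have ht2 : t < 1 := by
    by_contra h
    push Not at h
    nlinarith
  have ht1 : q < t := by nlinarith
  have hdd0 : 0 < dd q := by
    unfold dd
    have : 0 < min (Real.sqrt q - q) (1 - Real.sqrt q) := lt_min (by linarith) (by linarith)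
    positivity
  have hdd1 : dd q ≤ (t - q) / 4 := by
    unfold dd
    have := min_le_left (Real.sqrt q - q) (1 - Real.sqrt q)
    linarith
  have hdd2 : dd q ≤ (1 - t) / 4 := by
    unfold dd
    have := min_le_right (Real.sqrt q - q) (1 - Real.sqrt q)
    linarith
  set g := 1 - (t + dd q) with hg
  have hg0 : 0 < g := by linarith
  set η := ε ^ 2 * g ^ 2 / 8 with hη
  have hη0 : 0 < η := by positivity
  set β := min (ε / 4) (ε ^ 2 * η / 4) with hβ
  have hβ0 : 0 < β := lt_min (by positivity) (by positivity)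
  have hβ1 : β ≤ ε / 4 := min_le_left _ _
  have hβ2 : β ≤ ε ^ 2 * η / 4 := min_le_right _ _
  have hC0 : 0 < C := by linarith
  set b := 1 + 2 * C / β + C * (B + 1) with hb
  have hb0 : 0 < b := by positivity
  have hb1 : 1 ≤ b := by
    have : 0 ≤ 2 * C / β := by positivity
    have : 0 ≤ C * (B + 1) := by positivity
    linarith
  have hb2 : 2 * C / β ≤ b := by
    have : 0 ≤ C * (B + 1) := by positivity
    linarith
  have hb3 : C * (B + 1) ≤ b := by
    have : 0 ≤ 2 * C / β := by positivity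
    linarith
  set κ := ε ^ 2 * g ^ 2 / (16 * b) with hκ
  have hκ0 : 0 < κ := by positivity
  refine ⟨min 1 (κ ^ 2), lt_min one_pos (by positivity), fun c hc hc3 => ?_⟩
  have hc1 : c ≤ 1 := le_trans hc3 (min_le_left _ _)
  have hc2 : c ≤ κ ^ 2 := le_trans hc3 (min_le_right _ _)
  obtain ⟨H₀, hH₀⟩ := exists_nat_ge ((2 * (B + 1) + b / dd q + 1) ^ 3)
  refine ⟨H₀, fun H hH x y E s hxy hyE hs1 hs2 hEx hEy Ω _ μ W hW => ?_⟩
  -- the scale
  set h := (H:ℝ) ^ (1 / 3 : ℝ) with hh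
  have hH0 : (0:ℝ) ≤ H := by positivity
  have hh0' : 0 ≤ h := by positivity
  have hh2 : (H:ℝ) ^ (2 / 3 : ℝ) = h ^ 2 := by
    rw [hh, ← Real.rpow_natCast, ← Real.rpow_mul hH0]; norm_num
  have hh3 : (H:ℝ) = h ^ 3 := by
    rw [hh, ← Real.rpow_natCast, ← Real.rpow_mul hH0]; norm_num
  have hhK : 2 * (B + 1) + b / dd q + 1 ≤ h := by
    by_contra hcon
    push Not at hcon
    have h1 := pow_lt_pow_left₀ hcon hh0' (by norm_num : (3:ℕ) ≠ 0)
    have h2 : (H₀:ℝ) ≤ H := by exact_mod_cast hH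
    rw [← hh3] at h1
    linarith
  have hbd : 0 ≤ b / dd q := by positivity
  have hh1 : 1 ≤ h := by linarith
  have hh0 : 0 < h := by linarith
  have hhB : 2 * (B + 1) ≤ h := by linarith
  have hhd : b / dd q ≤ h := by linarith
  rw [hh2] at hs1 hs2 hEx hEy
  have hsr : (0:ℝ) < s := lt_of_lt_of_le (by positivity) hs1
  set d := b / h with hd
  have hd0 : 0 < d := by positivity
  have hd1 : d ≤ dd q := by
    rw [hd, div_le_iff₀ hh0]
    rw [div_le_iff₀ hdd0] at hhd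
    linarith
  obtain ⟨k0, rfl⟩ := Nat.exists_eq_add_of_le hxy
  obtain ⟨m1, rfl⟩ : ∃ m1, E = x + k0 + m1 := ⟨E - (x + k0), by omega⟩
  have e1 : x + k0 + m1 + s - (x + k0) = m1 + s := by omega
  have e2 : x + k0 + m1 - (x + k0) = m1 := by omega
  have e3 : x + k0 + m1 + s - x = k0 + m1 + s := by omega
  have e4 : x + k0 + m1 - x = k0 + m1 := by omega
  rw [e1, e2, e3, e4]
  obtain ⟨Ω', mΩ', μ', I, J, I', J', W', hBW, hS1, hS2⟩ := systems hSys q (t + d) (t - d) hq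
    (by linarith) (by linarith) (by linarith) (by linarith) x (x + k0)
  have hprob : IsProbabilityMeasure μ' := GeoFam.prob hBW
  -- the function of the weights
  have hT : ∀ z m n : ℕ, Measurable (fun w : ℕ → ℕ → ℕ => (T (sh z 0 w) m n : ℝ)) := by
    intro z m n
    have h1 : Measurable (fun w : ℕ → ℕ → ℕ => ((zero, zero, sh z 0 w) :
        (ℕ → ℕ) × (ℕ → ℕ) × (ℕ → ℕ → ℕ))) := by
      refine measurable_const.prodMk (measurable_const.prodMk ?_)
      exact measurable_pi_lambda _ fun i => measurable_pi_lambda _ fun j =>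
        (measurable_pi_apply (j + 0)).comp (measurable_pi_apply (i + z))
    have h2 := (hA.1 m n).comp h1
    exact (measurable_from_nat (f := fun k : ℕ => (k : ℝ))).comp h2
  set F : (ℕ → ℕ → ℕ) → ℝ := fun w =>
    ((T (sh (x + k0) 0 w) (m1 + s) H : ℝ) - T (sh (x + k0) 0 w) m1 H) -
      ((T (sh x 0 w) (k0 + m1 + s) H : ℝ) - T (sh x 0 w) (k0 + m1) H) with hF
  have hFm : Measurable F := ((hT _ _ _).sub (hT _ _ _)).sub ((hT _ _ _).sub (hT _ _ _))
  have hid := hLawB μ μ' q W W' hW hBW F hFm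
  have hev : μ.real {ω | ε * Real.sqrt s ≤
      ((Tr (shr (x + k0) 0 W) (m1 + s) H ω : ℝ) - Tr (shr (x + k0) 0 W) m1 H ω) -
      ((Tr (shr x 0 W) (k0 + m1 + s) H ω : ℝ) - Tr (shr x 0 W) (k0 + m1) H ω)} =
      μ'.real {ω | ε * Real.sqrt s ≤ F (fun i j => W' i j ω)} := by
    have h1 := hid.measure_mem_eq (measurableSet_Ici (a := ε * Real.sqrt s))
    exact congrArg ENNReal.toReal h1
  rw [hev]
  -- sizes
  have hm1 : |(m1:ℝ) - H| ≤ B * h ^ 2 := by
    have : ((x + k0 + m1 : ℕ) : ℝ) - ((x + k0 : ℕ) : ℝ) - H = m1 - H := by push_cast; ring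
    rwa [this] at hEy
  have hm2 : |((k0 + m1 : ℕ) : ℝ) - H| ≤ B * h ^ 2 := by
    have : ((x + k0 + m1 : ℕ) : ℝ) - (x : ℝ) - H = ((k0 + m1 : ℕ) : ℝ) - H := by push_cast; ring
    rwa [this] at hEx
  have hs3 : (s:ℝ) ≤ h ^ 2 := by
    have h1 : 0 ≤ h ^ 2 := by positivity
    have h2 : c * h ^ 2 ≤ 1 * h ^ 2 := mul_le_mul_of_nonneg_right hc1 h1
    linarith
  have hm3 : |((k0 + m1 + s : ℕ) : ℝ) - H| ≤ (B + 1) * h ^ 2 := by
    have : ((k0 + m1 + s : ℕ) : ℝ) = ((k0 + m1 : ℕ) : ℝ) + s := by push_cast; ring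
    rw [this]
    have e : (B + 1) * h ^ 2 = B * h ^ 2 + h ^ 2 := by ring
    rw [e]
    rw [abs_le] at hm2 ⊢
    constructor
    · linarith [hm2.1]
    · linarith [hm2.2]
  have hh23 : (B + 1) * h ^ 2 ≤ h ^ 3 / 2 := by
    have h1 : 0 ≤ h ^ 2 := by positivity
    have h2 : 2 * (B + 1) * h ^ 2 ≤ h * h ^ 2 := mul_le_mul_of_nonneg_right hhB h1
    have h3 : h * h ^ 2 = h ^ 3 := by ring
    linarith
  have hBh : B * h ^ 2 ≤ (B + 1) * h ^ 2 := mul_le_mul_of_nonneg_right (by linarith) (by positivity)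
  have size : ∀ m : ℕ, |(m:ℝ) - H| ≤ (B + 1) * h ^ 2 → H ≤ 2 * m ∧ m ≤ 2 * H ∧ C * |(m:ℝ) - H| ≤ H * d := by
    intro m hm
    have hm' := hm
    rw [abs_le] at hm'
    refine ⟨?_, ?_, ?_⟩
    · have : (H:ℝ) ≤ 2 * m := by linarith [hm'.1, hh3, hh23]
      exact_mod_cast this
    · have : (m:ℝ) ≤ 2 * H := by
        have : 0 ≤ h ^ 3 := by positivity
        linarith [hm'.2, hh3, hh23]
      exact_mod_cast this
    · have h1 : (H:ℝ) * d = b * h ^ 2 := by
        rw [hh3, hd]; field_simp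
      rw [h1]
      have h2 : 0 ≤ h ^ 2 := by positivity
      calc C * |(m:ℝ) - H| ≤ C * ((B + 1) * h ^ 2) := mul_le_mul_of_nonneg_left hm hC0.le
        _ = C * (B + 1) * h ^ 2 := by ring
        _ ≤ b * h ^ 2 := mul_le_mul_of_nonneg_right hb3 h2
  have hH1 : 1 ≤ H := by
    have : (0:ℝ) < H := by rw [hh3]; positivity
    exact_mod_cast this
  obtain ⟨a1, a2, a3⟩ := size m1 (le_trans hm1 hBh)
  obtain ⟨a4, a5, a6⟩ := size (k0 + m1 + s) hm3
  -- bad events
  have hdH : d ^ 3 * H = b ^ 3 := by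
    rw [hh3, hd]; field_simp
  have hCb : C / b ^ 3 ≤ β / 2 := by
    have h1 : C / b ^ 3 ≤ C / b := div_le_div_of_nonneg_left hC0.le hb0 (by
      calc b = b ^ 1 := (pow_one b).symm
        _ ≤ b ^ 3 := pow_le_pow_right₀ hb1 (by norm_num))
    have h2 : C / b ≤ β / 2 := by
      rw [div_le_iff₀ hb0]
      rw [div_le_iff₀ hβ0] at hb2
      linarith
    linarith
  have p1 := (hSW μ' d I J (shr (x + k0) 0 W') m1 H hd0 hd1 hH1 a1 a2 a3).1 hS1
  have p2 := (hSW μ' d I' J' (shr x 0 W') (k0 + m1 + s) H hd0 hd1 hH1 a4 a5 a6).2 hS2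
  rw [hdH] at p1 p2
  set b1 : Set Ω' := {ω | Gr I zr (shr (x + k0) 0 W') m1 H ω < Gr zr J (shr (x + k0) 0 W') m1 H ω} with hb1'
  set b2 : Set Ω' := {ω | Gr zr J' (shr x 0 W') (k0 + m1 + s) H ω < Gr I' zr (shr x 0 W') (k0 + m1 + s) H ω}
    with hb2'
  have mW : ∀ i j, Measurable (W' i j) := fun i j => GeoFam.meas hBW (i, j)
  have mI : ∀ i, Measurable (I i) := fun i => GeoFam.meas hS1 (Sum.inl i)
  have mJ : ∀ i, Measurable (J i) := fun i => GeoFam.meas hS1 (Sum.inr (Sum.inl i))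
  have mI' : ∀ i, Measurable (I' i) := fun i => GeoFam.meas hS2 (Sum.inl i)
  have mJ' : ∀ i, Measurable (J' i) := fun i => GeoFam.meas hS2 (Sum.inr (Sum.inl i))
  have mz : ∀ i, Measurable ((zr : ℕ → Ω' → ℕ) i) := fun i => measurable_const
  have mb1 : MeasurableSet b1 := measurableSet_lt (hA.2.1 _ _ _ mI mz (fun i j => mW _ _) _ _)
    (hA.2.1 _ _ _ mz mJ (fun i j => mW _ _) _ _)
  have mb2 : MeasurableSet b2 := measurableSet_lt (hA.2.1 _ _ _ mz mJ' (fun i j => mW _ _) _ _)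
    (hA.2.1 _ _ _ mI' mz (fun i j => mW _ _) _ _)
  have hbadP : μ'.real (b1 ∪ b2) ≤ β := by
    refine le_trans (measureReal_union_le _ _) ?_
    linarith
  -- increments
  obtain ⟨u1, u2, u3⟩ := incr hA hBurke hMom μ' q (t + d) hq (by linarith) (by linarith) I J
    (shr (x + k0) 0 W') hS1 m1 s H
  obtain ⟨v1, v2, v3⟩ := incr hA hBurke hMom μ' q (t - d) hq (by linarith) (by linarith) I' J'
    (shr x 0 W') hS2 (k0 + m1) s H
  have hvari : ∀ a : ℝ, 0 < a → a ≤ t + dd q → vari a ≤ 1 / g ^ 2 := by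
    intro a ha0 ha
    unfold vari
    have h1 : g ≤ 1 - a := by linarith
    have h2 : g ^ 2 ≤ (1 - a) ^ 2 := pow_le_pow_left₀ hg0.le h1 2
    exact div_le_div₀ (by norm_num) (by linarith) (by positivity) h2
  have hmean0 : mean (t - d) ≤ mean (t + d) := mean_mono (by linarith) (by linarith)
  have hmean1 : mean (t + d) - mean (t - d) ≤ 2 * d / g ^ 2 :=
    mean_diff hg0 hd0.le (by linarith) (by linarith)
  have hss : 0 < Real.sqrt s := Real.sqrt_pos.2 hsr
  have hss2 : Real.sqrt s * Real.sqrt s = s := Real.mul_self_sqrt hsr.le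
  set θ := η / Real.sqrt s with hθ
  have hθ0 : 0 < θ := by positivity
  have hYm : Measurable (fun ω => F (fun i j => W' i j ω)) :=
    hFm.comp (measurable_pi_lambda _ fun i => measurable_pi_lambda _ fun j => mW i j)
  have hab := abstract μ' _ _ (fun ω => F (fun i j => W' i j ω)) (b1 ∪ b2) (mb1.union mb2) hYm u1 v1
    (s * mean (t + d)) (s * mean (t - d)) (s / g ^ 2) (ε * Real.sqrt s) θ hθ0 (by positivity)
    (by
      intro ω hω
      rw [Set.mem_union, not_or] at hω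
      have g1 : Gr zr J (shr (x + k0) 0 W') m1 H ω ≤ Gr I zr (shr (x + k0) 0 W') m1 H ω :=
        not_lt.1 hω.1
      have g2 : Gr I' zr (shr x 0 W') (k0 + m1 + s) H ω ≤ Gr zr J' (shr x 0 W') (k0 + m1 + s) H ω :=
        not_lt.1 hω.2
      have s1 := (hSand (fun i => I i ω) (fun j => J j ω) (fun i j => shr (x + k0) 0 W' i j ω) m1 H).1
        g1 s
      have s2 := (hSand (fun i => I' i ω) (fun j => J' j ω) (fun i j => shr x 0 W' i j ω)
        (k0 + m1 + s) H).2 g2 s (Nat.le_add_left _ _)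
      rw [Nat.add_sub_cancel] at s2
      have s3 := hCross (fun i j => shr x 0 W' i j ω) k0 m1 s H
      rw [sh_sh W' x k0 ω] at s3
      have s1' : (T (sh (x + k0) 0 (fun i j => W' i j ω)) (m1 + s) H : ℝ) +
          Gr I J (shr (x + k0) 0 W') m1 H ω ≤ Gr I J (shr (x + k0) 0 W') (m1 + s) H ω +
          T (sh (x + k0) 0 (fun i j => W' i j ω)) m1 H := by exact_mod_cast s1
      have s2' : (Gr I' J' (shr x 0 W') (k0 + m1 + s) H ω : ℝ) +
          T (sh x 0 (fun i j => W' i j ω)) (k0 + m1) H ≤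
          T (sh x 0 (fun i j => W' i j ω)) (k0 + m1 + s) H +
          Gr I' J' (shr x 0 W') (k0 + m1) H ω := by exact_mod_cast s2
      have s3' : (T (sh (x + k0) 0 (fun i j => W' i j ω)) m1 H : ℝ) +
          T (sh x 0 (fun i j => W' i j ω)) (k0 + m1 + s) H ≤
          T (sh (x + k0) 0 (fun i j => W' i j ω)) (m1 + s) H +
          T (sh x 0 (fun i j => W' i j ω)) (k0 + m1) H := by exact_mod_cast s3
      rw [hF]
      constructor
      · simp only
        linarith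
      · simp only
        linarith)
    u2 v2 (mul_le_mul_of_nonneg_left hmean0 hsr.le)
    (by
      rw [u3, div_eq_mul_one_div]
      exact mul_le_mul_of_nonneg_left (hvari _ (by linarith) (by linarith)) hsr.le)
    (by
      rw [v3, div_eq_mul_one_div]
      exact mul_le_mul_of_nonneg_left (hvari _ (by linarith) (by linarith)) hsr.le)
  -- conclusion
  have c1 : s * mean (t + d) - s * mean (t - d) ≤ ε ^ 2 / 8 * Real.sqrt s := by
    have h1 : s * mean (t + d) - s * mean (t - d) ≤ s * (2 * d / g ^ 2) := by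
      rw [← mul_sub]
      exact mul_le_mul_of_nonneg_left hmean1 hsr.le
    have h2 : Real.sqrt s ≤ κ * h := sqrt_bd hκ0.le hh0.le hs2 hc2
    have h3 : Real.sqrt s * d ≤ κ * b := by
      calc Real.sqrt s * d ≤ κ * h * d := mul_le_mul_of_nonneg_right h2 hd0.le
        _ = κ * b := by rw [hd]; field_simp
    have h4 : κ * b = ε ^ 2 * g ^ 2 / 16 := by rw [hκ]; field_simp
    have h5 : s * (2 * d / g ^ 2) = Real.sqrt s * d * (2 / g ^ 2) * Real.sqrt s := by
      rw [← hss2]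
      have : Real.sqrt (Real.sqrt s * Real.sqrt s) = Real.sqrt s := by rw [hss2]
      rw [this]; ring
    rw [h5] at h1
    refine le_trans h1 (mul_le_mul_of_nonneg_right ?_ hss.le)
    calc Real.sqrt s * d * (2 / g ^ 2) ≤ κ * b * (2 / g ^ 2) :=
          mul_le_mul_of_nonneg_right h3 (by positivity)
      _ = ε ^ 2 / 8 := by rw [h4]; field_simp; norm_num
  have c2 : θ * (s / g ^ 2) = ε ^ 2 / 8 * Real.sqrt s := by
    rw [hθ, hη]
    have : (s:ℝ) / Real.sqrt s = Real.sqrt s := by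
      rw [div_eq_iff hss.ne']; exact hss2.symm
    calc ε ^ 2 * g ^ 2 / 8 / Real.sqrt s * (s / g ^ 2) = ε ^ 2 / 8 * (s / Real.sqrt s) := by field_simp
      _ = _ := by rw [this]
  have c3 : 1 / θ * μ'.real (b1 ∪ b2) ≤ ε ^ 2 / 4 * Real.sqrt s := by
    have h1 : 1 / θ = Real.sqrt s / η := by rw [hθ]; field_simp
    rw [h1]
    calc Real.sqrt s / η * μ'.real (b1 ∪ b2) ≤ Real.sqrt s / η * (ε ^ 2 * η / 4) :=
          mul_le_mul_of_nonneg_left (le_trans hbadP hβ2) (by positivity)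
      _ = _ := by field_simp
  have c4 : ε * Real.sqrt s * μ'.real ({ω | ε * Real.sqrt s ≤ F (fun i j => W' i j ω)} ∩ (b1 ∪ b2)ᶜ) ≤
      ε * Real.sqrt s * (ε / 2) := by
    rw [c2] at hab
    refine le_trans hab ?_
    have e : ε * Real.sqrt s * (ε / 2) = ε ^ 2 / 8 * Real.sqrt s + ε ^ 2 / 8 * Real.sqrt s +
        ε ^ 2 / 4 * Real.sqrt s := by ring
    rw [e]
    linarith
  have c5 := le_of_mul_le_mul_left c4 (by positivity)
  have c6 : μ'.real {ω | ε * Real.sqrt s ≤ F (fun i j => W' i j ω)} ≤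
      μ'.real (({ω | ε * Real.sqrt s ≤ F (fun i j => W' i j ω)} ∩ (b1 ∪ b2)ᶜ) ∪ (b1 ∪ b2)) := by
    refine measureReal_mono ?_
    intro ω hω
    by_cases hb' : ω ∈ b1 ∪ b2
    · exact Or.inr hb'
    · exact Or.inl ⟨hω, hb'⟩
  refine le_trans c6 (le_trans (measureReal_union_le _ _) ?_)
  linarith

end Pool.Agent.W991.LP
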